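import Pool.Agent.Helper15.T4.Stmts

set_option autoImplicit false

open Finset MeasureTheory Filter Topology

namespace Pool.Agent.Helper25.T4

open Pool.Agent.Helper15.T4

/-- the matrix `S` -/
noncomputable def SM : Matrix L1 L1 ℂ := Matrix.of fun a i => S1 a i

theorem SM_row (c : L1) : ∑ i, S1 c i = (Real.sqrt 2 : ℂ) := by
  obtain ⟨c1, c2⟩ := c
  rw [Fintype.sum_prod_type]
  have h : ∀ x : Fin 4, ∑ y : Fin 3, S1 (c1, c2) (x, y) =
      if c1 = x then (Real.sqrt 2 : ℂ) else 0 := by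
    intro x
    by_cases hx : c1 = x
    · subst hx
      simp only [S1, if_true]
      rw [Finset.sum_add_distrib, Finset.sum_ite_eq]
      simp
      ring
    · simp [S1, hx]
  rw [Finset.sum_congr rfl (fun x _ => h x)]
  simp

theorem S1_symm (a b : L1) : S1 a b = S1 b a := by
  simp only [S1, eq_comm]

theorem w1_rot (a b c : L1) : w1 a b c = w1 b c a := by
  simp only [w1]
  congr 1
  apply propext
  constructor
  · rintro ⟨h1, h2, h3, h4, h5⟩
    exact ⟨h3, Ne.symm h1, Ne.symm h2, h4.symm.trans h5, h4.symm⟩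
  · rintro ⟨h1, h2, h3, h4, h5⟩
    exact ⟨Ne.symm h2, Ne.symm h3, h1, h5.symm, h5.symm.trans h4⟩

theorem l_single (a i : L1) : m1.l a (Pi.single i (1 : ℝ)) = S1 a i := by
  unfold Mdl.l
  rw [Finset.sum_eq_single i]
  · simp [m1]
  · intro b _ hb
    simp [Pi.single_eq_of_ne hb]
  · simp

theorem T_eq (i j : L1) : m1.T u1 (Pi.single i 1) (Pi.single j 1) =
    (SM.transpose * m1.R u1 * SM) i j := by
  unfold Mdl.T
  simp only [l_single]
  rw [Matrix.mul_apply]
  simp only [Matrix.mul_apply, Mdl.R, SM, Matrix.transpose_apply, Matrix.of_apply]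
  rw [Finset.sum_comm]
  have h : ∀ b : L1, ∑ a, ∑ c, (m1.w a b c : ℂ) * m1.l a u1 * S1 b i * S1 c j =
      ∑ c, ∑ a, (m1.w a b c : ℂ) * m1.l a u1 * S1 b i * S1 c j := fun b => Finset.sum_comm
  rw [Finset.sum_congr rfl (fun b _ => h b), Finset.sum_comm]
  apply Finset.sum_congr rfl
  intro c _
  rw [Finset.sum_mul]
  apply Finset.sum_congr rfl
  intro b _
  rw [Finset.mul_sum, Finset.sum_mul]
  apply Finset.sum_congr rfl
  intro a _
  have : m1.w a b c = m1.w b c a := w1_rot a b c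
  rw [this]
  ring

theorem AM_eq : m1.AM = SM * SM.transpose := by
  ext a b
  simp [Mdl.AM, Matrix.mul_apply, SM, m1]

/-- the matrix with all entries `1 / 12` -/
noncomputable def J12 : Matrix L1 L1 ℂ := Matrix.of fun _ _ => (1 / 12 : ℂ)

theorem S_J (i j : L1) : (SM.transpose * J12 * SM) i j = 2 * J12 i j := by
  have h2 : ((Real.sqrt 2 : ℝ) : ℂ) * ((Real.sqrt 2 : ℝ) : ℂ) = 2 := by
    rw [← Complex.ofReal_mul, Real.mul_self_sqrt (by norm_num)]
    norm_num
  have e1 : ∀ k, (SM.transpose * J12) i k = (Real.sqrt 2 : ℂ) / 12 := by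
    intro k
    simp only [Matrix.mul_apply, Matrix.transpose_apply, SM, J12, Matrix.of_apply]
    rw [← Finset.sum_mul]
    have : ∑ x, S1 x i = (Real.sqrt 2 : ℂ) := by
      rw [← SM_row i]
      exact Finset.sum_congr rfl (fun x _ => S1_symm x i)
    rw [this]
    ring
  rw [Matrix.mul_apply]
  simp only [e1]
  rw [← Finset.mul_sum]
  have : ∑ x, SM x j = (Real.sqrt 2 : ℂ) := by
    rw [← SM_row j]
    exact Finset.sum_congr rfl (fun x _ => S1_symm x j)
  rw [this]
  simp only [J12, Matrix.of_apply]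
  linear_combination (1 / 12 : ℂ) * h2

theorem J_AM : J12 * m1.AM = (2 : ℂ) • J12 := by
  have h2 : ((Real.sqrt 2 : ℝ) : ℂ) * ((Real.sqrt 2 : ℝ) : ℂ) = 2 := by
    rw [← Complex.ofReal_mul, Real.mul_self_sqrt (by norm_num)]
    norm_num
  rw [AM_eq, ← Matrix.mul_assoc]
  ext i j
  have e1 : ∀ k, (J12 * SM) i k = (Real.sqrt 2 : ℂ) / 12 := by
    intro k
    simp only [Matrix.mul_apply, SM, J12, Matrix.of_apply]
    rw [← Finset.mul_sum]
    have : ∑ x, S1 x k = (Real.sqrt 2 : ℂ) := by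
      rw [← SM_row k]
      exact Finset.sum_congr rfl (fun x _ => S1_symm x k)
    rw [this]
    ring
  rw [Matrix.mul_apply]
  simp only [e1, Matrix.transpose_apply]
  rw [← Finset.mul_sum]
  have : ∑ x, SM j x = (Real.sqrt 2 : ℂ) := SM_row j
  rw [this]
  simp only [J12, Matrix.smul_apply, Matrix.of_apply, smul_eq_mul]
  linear_combination (1 / 12 : ℂ) * h2

theorem HM_eq : HM m1.T u1 q1 = (3 : ℂ) • (1 + SM.transpose *
    ((-(2 : ℂ) / (q1 : ℂ)) • m1.R u1 + (3 / 2 : ℂ) • J12) * SM) := by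
  have hu : ∀ i j : L1, ((u1 i * u1 j : ℝ) : ℂ) = 1 / 12 := by
    intro i j
    have : u1 i * u1 j = 1 / 12 := by
      unfold u1
      rw [div_mul_div_comm, Real.mul_self_sqrt (by norm_num)]
      norm_num
    rw [this]
    norm_num
  ext i j
  have e1 : SM.transpose * ((-(2 : ℂ) / (q1 : ℂ)) • m1.R u1 + (3 / 2 : ℂ) • J12) * SM =
      (-(2 : ℂ) / (q1 : ℂ)) • (SM.transpose * m1.R u1 * SM) +
        (3 / 2 : ℂ) • (SM.transpose * J12 * SM) := by
    rw [Matrix.mul_add, Matrix.add_mul, Matrix.mul_smul, Matrix.mul_smul, Matrix.smul_mul,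
      Matrix.smul_mul]
  rw [e1]
  simp only [HM, Matrix.of_apply, Matrix.smul_apply, Matrix.add_apply, smul_eq_mul, S_J, ← T_eq,
    hu, Matrix.one_apply]
  simp only [J12, Matrix.of_apply]
  split_ifs <;> ring

theorem DET1 (h1 : ST_DIAG) (h2 : ST_RU) : ST_DET1 := by
  obtain ⟨T, T', hTT, hTT', hB, hJ⟩ := h1
  have hq : (q1 : ℂ) ≠ 0 := by
    have : 0 < q1 := by unfold q1; exact Real.sqrt_pos.2 (by norm_num)
    exact_mod_cast this.ne'
  have hdet : (HM m1.T u1 q1).det = (Matrix.diagonal (fun a : L1 =>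
      (3 : ℂ) - 6 * ev a + 9 * (if a = (0, 0) then 1 else 0))).det := by
    rw [HM_eq, Matrix.det_smul, Matrix.mul_assoc, Matrix.det_one_add_mul_comm, Matrix.mul_assoc,
      ← AM_eq, ← Matrix.det_smul]
    have e1 : ((-(2 : ℂ) / (q1 : ℂ)) • m1.R u1 + (3 / 2 : ℂ) • J12) * m1.AM =
        (-2 : ℂ) • B1 + (3 : ℂ) • J12 := by
      rw [Matrix.add_mul, Matrix.smul_mul, Matrix.smul_mul, J_AM]
      have : m1.R u1 * m1.AM = (q1 : ℂ) • B1 := h2
      rw [this, smul_smul, smul_smul]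
      congr 2
      · field_simp
      · norm_num
    rw [e1]
    have e2 : T' * ((3 : ℂ) • (1 + ((-2 : ℂ) • B1 + (3 : ℂ) • J12))) * T =
        Matrix.diagonal (fun a : L1 => (3 : ℂ) - 6 * ev a + 9 * (if a = (0, 0) then 1 else 0)) := by
      have : T' * ((3 : ℂ) • (1 + ((-2 : ℂ) • B1 + (3 : ℂ) • J12))) * T =
          (3 : ℂ) • (T' * T) + (-6 : ℂ) • (T' * B1 * T) + (9 : ℂ) • (T' * J12 * T) := by
        simp only [Matrix.mul_add, Matrix.add_mul, Matrix.mul_smul, Matrix.smul_mul, smul_add,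
          smul_smul, Matrix.mul_one]
        rw [add_assoc]
        norm_num
      rw [this, hTT', hB]
      have hJ' : T' * J12 * T = Matrix.diagonal (fun a => if a = (0, 0) then (1 : ℂ) else 0) := hJ
      rw [hJ']
      ext a b
      by_cases hab : a = b
      · subst hab
        simp only [Matrix.add_apply, Matrix.smul_apply, Matrix.one_apply_eq,
          Matrix.diagonal_apply_eq, smul_eq_mul]
        ring
      · simp [Matrix.diagonal_apply_ne _ hab, Matrix.one_apply_ne hab]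
    rw [← e2, Matrix.det_mul, Matrix.det_mul, mul_comm, ← mul_assoc]
    have : T.det * T'.det = 1 := by rw [← Matrix.det_mul, hTT, Matrix.det_one]
    rw [this, one_mul]
  unfold ST_DET1
  rw [hdet, Matrix.det_diagonal, Fintype.prod_prod_type]
  have hn : ‖(3 : ℂ) - 6 * nu‖ ^ 2 = 9 * (7 / 2) := by
    rw [← Complex.normSq_eq_norm_sq]
    have h7 : Real.sqrt 7 * Real.sqrt 7 = 7 := Real.mul_self_sqrt (by norm_num)
    have hre : ((3 : ℂ) - 6 * nu).re = 21 / 4 := by
      simp [nu]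
      norm_num
    have him : ((3 : ℂ) - 6 * nu).im = -(3 / 4) * Real.sqrt 7 := by
      simp [nu]
      ring
    rw [Complex.normSq_apply, hre, him]
    nlinarith [h7]
  have hc : ‖(3 : ℂ) - 6 * (starRingEnd ℂ) nu‖ = ‖(3 : ℂ) - 6 * nu‖ := by
    rw [← Complex.norm_conj, map_sub, map_mul, Complex.conj_conj, map_ofNat, map_ofNat]
  have hv : ∀ x : Fin 4, ‖∏ y : Fin 3, ((3 : ℂ) - 6 * ev (x, y) +
      9 * (if ((x, y) : L1) = (0, 0) then 1 else 0))‖ =
      if x = 0 then 6 * (3 / 2) ^ 2 else ‖(3 : ℂ) - 6 * nu‖ ^ 2 * (3 / 2) := by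
    intro x
    rw [norm_prod, Fin.prod_univ_three]
    by_cases hx : x = 0
    · subst hx
      simp [ev]
      norm_num
    · have h0 : ev (x, 0) = nu := by simp [ev, hx]
      have h1 : ev (x, 1) = (starRingEnd ℂ) nu := by simp [ev, hx]
      have h2 : ev (x, 2) = 1 / 4 := by simp [ev, hx]
      rw [h0, h1, h2]
      have e0 : ¬ (((x, 0) : L1) = (0, 0)) := by simp [hx]
      have e1 : ¬ (((x, 1) : L1) = (0, 0)) := by simp [hx]
      have e2 : ¬ (((x, 2) : L1) = (0, 0)) := by simp [hx]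
      rw [if_neg e0, if_neg e1, if_neg e2, if_neg hx]
      simp only [mul_zero, add_zero]
      rw [hc]
      have : ‖(3 : ℂ) - 6 * (1 / 4)‖ = 3 / 2 := by
        have : (3 : ℂ) - 6 * (1 / 4) = ((3 / 2 : ℝ) : ℂ) := by push_cast; norm_num
        rw [this, Complex.norm_real]
        norm_num
      rw [this]
      ring
  rw [norm_prod, Finset.prod_congr rfl (fun x _ => hv x), hn]
  rw [Fin.prod_univ_four]
  simp
  norm_num

end Pool.Agent.Helper25.T4
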